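import Pool.Agent.H16.TK.Stmt2

/-! EPM: marks of end-pieces. -/

set_option autoImplicit false

open Set

namespace Pool.Agent.TK

theorem pf_EPM {C : Type} {c0 : C} (hRST : RST C c0) : EPM C c0 := by
  intro b M hM a a' D hE hsub hdis
  obtain ⟨w, A, S, hcs, hA0, hw, hbig, hlev⟩ := hE
  have hdir := hcs.dir
  have hcp : IsCp M (ms a) D := by
    have := hdir.1 (ms a) (ms_finite a)
    rwa [← hA0, hw, hA0] at this
  have hcp' : IsCp M (ms a') (w (ms a')) := hdir.1 (ms a') (ms_finite a')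
  have hle : w (ms a') ⊆ D := by
    have := hdir.2 (ms a) (ms a') (ms_finite a') hsub
    rwa [← hA0, hw] at this
  have heq : w (ms a') = D := by
    obtain ⟨x, hx⟩ := hcp'.nonempty
    exact Subset.antisymm hle ((hcp.cd hM).subset hM hcp' hdis (hle hx) hx)
  obtain ⟨A'', S'', hcs', h0, hwA, hL⟩ := hRST M hM w (Dm M w) A S hcs 0 (ms a') (ms_finite a')
    ((hcs.P0.trans (by rw [hA0])).trans hsub) (by rw [heq, hw])
  refine ⟨w, A'', S'', hcs', h0, by rw [h0, heq], ?_, ?_⟩
  · intro n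
    rw [hwA n]
    exact hbig _
  · intro n D' hD'
    exact hlev _ D' ((hL n D').1 hD')

end Pool.Agent.TK
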