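import Pool.Agent.H16.TK.Stmt2

/-! MSUB: smaller flaps of small flaps are small. -/

set_option autoImplicit false

open Set

namespace Pool.Agent.TK

theorem pf_MSUB {C : Type} {c0 : C} (hRP1 : RP1 C c0) (hFISUB : FISUB C c0) (hINF : INF C) :
    MSUB C c0 := by
  intro r hr M a D hM hD hS e he v hv hve
  have hva : v ∉ a := fun h => Set.disjoint_left.1 hD.disj hv h
  have hvae : v ∉ ms (a ++ e) := by
    intro h
    rcases List.mem_append.1 h with h | h
    exacts [hva h, hve h]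
  set D' := cp M (ms (a ++ e)) v with hD'
  have hC' : IsCp M (ms (a ++ e)) D' := isCp_cp hvae
  have hvD' : v ∈ D' := self_mem_cp hvae
  have hsub : D' ⊆ D := cp_subset hM hD (by rw [ms_append]; exact subset_union_left) hv
  by_cases hfin : D'.Finite
  · apply Rig.small
    intro N b w hN hb hF
    exact (hINF _ _ _ _ _ _ (hF.mono hr)).2 hfin
  · obtain ⟨T, hT, hTv, h⟩ := hS
    refine ⟨{s | (∃ t ∈ T, ∃ e' : List ℕ, s.1 = t.1 ∧ s.2.1 = t.2.1 ++ e') ∧ s.2.2 ∉ s.2.1},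
      ?_, ?_, ?_⟩
    · have : {s : Fl C | (∃ t ∈ T, ∃ e' : List ℕ, s.1 = t.1 ∧ s.2.1 = t.2.1 ++ e') ∧
          s.2.2 ∉ s.2.1} ⊆ ⋃ t ∈ T, ⋃ e' : List ℕ, ⋃ w : ℕ, {(t.1, t.2.1 ++ e', w)} := by
        rintro ⟨s1, s2, s3⟩ ⟨⟨t, ht, e', h1, h2⟩, -⟩
        simp only at h1 h2
        subst h1 h2
        simp only [mem_iUnion]
        exact ⟨t, ht, e', s3, rfl⟩
      refine Set.Countable.mono this ?_
      exact hT.biUnion (fun t _ => countable_iUnion fun e' => countable_iUnion fun w =>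
        countable_singleton _)
    · rintro ⟨s1, s2, s3⟩ ⟨⟨t, ht, e', h1, h2⟩, h3⟩
      simp only at h1 h2 h3 ⊢
      subst h1
      exact ⟨(hTv t ht).1, h3⟩
    · intro N b w hN hb hF
      obtain ⟨M', hM', hc', hFI, -, -, -, -, hrest⟩ :=
        hRP1 r hr M (a ++ e) D' hM hC' hfin N b w hN hb hF
      obtain ⟨hcD, hbf⟩ := hrest a D hD hsub
      obtain ⟨x, hx, hxD⟩ := hcD
      have hFB : FB r M a D M' a (cp M' (ms a) x) := by
        refine ⟨rfl, ?_⟩
        rw [← dg_eq_zip, ← hxD]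
        exact hbf
      obtain ⟨t, ht, hFI'⟩ := h M' a x hM' hx hFB
      rw [← hxD] at hFI'
      obtain ⟨g, hg⟩ := hFI'
      have hct : IsCp t.1 (ms t.2.1) t.set := ⟨t.2.2, (hTv t ht).2, rfl⟩
      have hk := hFISUB M' t.1 a t.2.1 D t.set g hM' (hTv t ht).1 ⟨x, hx, hxD⟩ hct hg e he v hv
        hve
      refine ⟨(t.1, t.2.1 ++ e.map g, g v), ⟨⟨t, ht, e.map g, rfl, rfl⟩, ?_⟩, ?_⟩
      · intro hmem
        rcases List.mem_append.1 hmem with hm | hm
        · exact Set.disjoint_left.1 hct.disj (hg.2.1.mapsTo hv) hm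
        · obtain ⟨z, hz, hzv⟩ := List.mem_map.1 hm
          have : z = v := hg.2.1.injOn (he z hz) hv hzv
          exact hve (this ▸ hz)
      · have hEq : cp M' (ms (a ++ e)) v = D' := (hc'.eq_cp hM' hvD').symm
        rw [hEq] at hk
        exact hFI.symm.trans ⟨g, hk⟩

end Pool.Agent.TK
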